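import Pool.Agent.helper78.HR.Defs

/-!
HR project (MP_58257a_co, S08871): row DE. A family of pairwise disjoint tight boxes is determined by
the sets of its left, right, bottom and top points.
-/

set_option autoImplicit false

namespace Pool.Agent.helper78.HR

open Finset

section DecodeAux

variable {ι : Type*} (x y : ι → ℤ)

/-- The coordinate `c` agrees for boxes of `D1` and `D2` with the same left point, if one of the two
values lies to the left of the column `X`. -/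
def De99Agr (D1 D2 : Finset (Fm ι)) (c : Fm ι → ι) (X : ℤ) : Prop :=
  ∀ f ∈ D1, ∀ g ∈ D2, f.1 = g.1 → (x (c f) < X ∨ x (c g) < X) → c f = c g

theorem De99Agr.symm {D1 D2 : Finset (Fm ι)} {c : Fm ι → ι} {X : ℤ} (h : De99Agr x D1 D2 c X) :
    De99Agr x D2 D1 c X := by
  intro f hf g hg e hc
  exact (h g hg f hf e.symm hc.symm).symm

theorem de99_eq {D : Finset (Fm ι)} (hd : Disj x y D) {f g : Fm ι} (hf : f ∈ D) (hg : g ∈ D)
    (z : ℤ × ℤ) (h1 : In x y f z) (h2 : In x y g z) : f = g := by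
  by_contra hne
  exact hd f hf g hg hne z ⟨h1, h2⟩

theorem de99_act {D1 D2 : Finset (Fm ι)} {X : ℤ} (hA : De99Agr x D1 D2 (fun f => f.2.1) X)
    (h2 : ∀ f ∈ D2, Fr x y f) {f g : Fm ι} (hf : f ∈ D1) (hg : g ∈ D2) (e : f.1 = g.1)
    (a : x f.1 ≤ X) (b : X ≤ x f.2.1) : In x y g (X, y f.1) := by
  have hb : X ≤ x g.2.1 := by
    by_contra hlt
    push Not at hlt
    have hh := hA f hf g hg e (Or.inr hlt)
    simp only at hh
    rw [hh] at b
    exact absurd b (not_le.mpr hlt)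
  obtain ⟨⟨_, _, c3, c4⟩, _⟩ := h2 g hg
  rw [e] at a ⊢
  exact ⟨a, hb, c3, c4⟩

/-- The case in which the box of `D1` has the lower left point. -/
theorem de99_lt {D1 D2 : Finset (Fm ι)} (hx : Function.Injective x)
    (h1 : ∀ f ∈ D1, Fr x y f) (h2 : ∀ f ∈ D2, Fr x y f) (d1 : Disj x y D1) (d2 : Disj x y D2)
    (e1 : ∀ f ∈ D1, ∃ g ∈ D2, f.1 = g.1) (e1' : ∀ g ∈ D2, ∃ f ∈ D1, g.1 = f.1)
    (e4 : ∀ f ∈ D1, ∃ g ∈ D2, f.2.2.2 = g.2.2.2) {X : ℤ}
    (aR : De99Agr x D1 D2 (fun f => f.2.1) X) (aT : De99Agr x D1 D2 (fun f => f.2.2.2) X)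
    {f g : Fm ι} (hf : f ∈ D1) (hg : g ∈ D2) (p : ι) (hp : x p = X)
    (hc : (f.2.1 = p ∧ g.2.1 = p) ∨ (f.2.2.1 = p ∧ g.2.2.1 = p) ∨ (f.2.2.2 = p ∧ g.2.2.2 = p))
    (hlt : y f.1 < y g.1) : False := by
  obtain ⟨⟨fl1, fl2, fl3, fl4⟩, ⟨fr1, fr2, fr3, fr4⟩, ⟨fb1, fb2, fb3, fb4⟩, ⟨ft1, ft2, ft3, ft4⟩⟩ :=
    h1 f hf
  obtain ⟨⟨gl1, gl2, gl3, gl4⟩, ⟨gr1, gr2, gr3, gr4⟩, ⟨gb1, gb2, gb3, gb4⟩, ⟨gt1, gt2, gt3, gt4⟩⟩ :=
    h2 g hg
  simp only at fl1 fl2 fl3 fl4 fr1 fr2 fr3 fr4 fb1 fb2 fb3 fb4 ft1 ft2 ft3 ft4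
  simp only at gl1 gl2 gl3 gl4 gr1 gr2 gr3 gr4 gb1 gb2 gb3 gb4 gt1 gt2 gt3 gt4
  have hpf : In x y f (X, y p) := by
    rcases hc with ⟨q, _⟩ | ⟨q, _⟩ | ⟨q, _⟩
    · rw [← hp, ← q]; exact ⟨fr1, fr2, fr3, fr4⟩
    · rw [← hp, ← q]; exact ⟨fb1, fb2, fb3, fb4⟩
    · rw [← hp, ← q]; exact ⟨ft1, ft2, ft3, ft4⟩
  have hpg : In x y g (X, y p) := by
    rcases hc with ⟨_, q⟩ | ⟨_, q⟩ | ⟨_, q⟩
    · rw [← hp, ← q]; exact ⟨gr1, gr2, gr3, gr4⟩
    · rw [← hp, ← q]; exact ⟨gb1, gb2, gb3, gb4⟩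
    · rw [← hp, ← q]; exact ⟨gt1, gt2, gt3, gt4⟩
  obtain ⟨f', hf', ef⟩ := e1 f hf
  obtain ⟨g', hg', eg⟩ := e1' g hg
  obtain ⟨pf1, pf2, pf3, pf4⟩ := hpf
  obtain ⟨pg1, pg2, pg3, pg4⟩ := hpg
  simp only at pf1 pf2 pf3 pf4 pg1 pg2 pg3 pg4
  have hAf : In x y f' (X, y f.1) := de99_act x y aR h2 hf hf' ef pf1 pf2
  have hAg : In x y g' (X, y g.1) := de99_act x y aR.symm h1 hg hg' eg pg1 pg2
  have hne : f' ≠ g := by
    intro h
    rw [ef, h] at hlt
    exact lt_irrefl _ hlt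
  have hne' : f ≠ g' := by
    intro h
    rw [eg, h] at hlt
    exact lt_irrefl _ hlt
  -- the left point of `f` lies below `g`
  have k1 : y f.1 < y g.2.2.1 := by
    by_contra hcon
    push Not at hcon
    exact hne (de99_eq x y d2 hf' hg (X, y f.1) hAf ⟨pg1, pg2, hcon, by simp only; omega⟩)
  have k2 : y f.2.2.2 < y g.1 := by
    by_contra hcon
    push Not at hcon
    exact hne' (de99_eq x y d1 hf hg' (X, y g.1) ⟨pf1, pf2, by simp only; omega, hcon⟩ hAg)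
  rcases hc with ⟨q1, q2⟩ | ⟨q1, q2⟩ | ⟨q1, q2⟩
  · -- right point
    have hxt : x f.2.2.2 ≤ X := by rw [← hp, ← q1]; exact ft2
    rcases lt_or_eq_of_le hxt with hl | he
    · have ht := aT f hf f' hf' ef (Or.inl hl)
      simp only at ht
      obtain ⟨w1, w2, w3, w4⟩ := hAf
      simp only at w1 w2 w3 w4
      refine hne (de99_eq x y d2 hf' hg (X, y g.2.2.1) ⟨w1, w2, ?_, ?_⟩ ⟨pg1, pg2, le_refl _, ?_⟩)
      · simp only; omega
      · simp only
        rw [← ht]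
        omega
      · simp only; omega
    · have htp : f.2.2.2 = p := hx (by rw [he, hp])
      obtain ⟨h, hh, eh⟩ := e4 f hf
      have hhp : h.2.2.2 = p := by rw [← eh, htp]
      obtain ⟨_, _, _, ⟨ht1, ht2, ht3, ht4⟩⟩ := h2 h hh
      simp only at ht1 ht2 ht3 ht4
      rw [hhp] at ht1 ht2 ht3 ht4
      have hhg : h = g := by
        refine de99_eq x y d2 hh hg (X, y p) ⟨?_, ?_, ?_, ?_⟩ ⟨pg1, pg2, pg3, pg4⟩
        · simp only; omega
        · simp only; omega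
        · exact ht3
        · simp only; rw [hhp]
      rw [hhg] at hhp
      rw [hhp] at gl4
      omega
  · rw [q1] at fl3
    omega
  · rw [q2] at gl4
    omega

end DecodeAux

/-- row DE (step 2). A family of pairwise disjoint tight boxes is determined by the sets of its left,
right, bottom and top points. -/
theorem decode {ι : Type*} [DecidableEq ι] (x y : ι → ℤ) (hx : Function.Injective x)
    (hy : Function.Injective y) (D1 D2 : Finset (Fm ι))
    (h1 : ∀ f ∈ D1, Fr x y f) (h2 : ∀ f ∈ D2, Fr x y f) (d1 : Disj x y D1) (d2 : Disj x y D2)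
    (e1 : D1.image (fun f => f.1) = D2.image (fun f => f.1))
    (e2 : D1.image (fun f => f.2.1) = D2.image (fun f => f.2.1))
    (e3 : D1.image (fun f => f.2.2.1) = D2.image (fun f => f.2.2.1))
    (e4 : D1.image (fun f => f.2.2.2) = D2.image (fun f => f.2.2.2)) : D1 = D2 := by
  classical
  -- images
  have im : ∀ (c : Fm ι → ι) (A B : Finset (Fm ι)), A.image c = B.image c →
      ∀ f ∈ A, ∃ g ∈ B, c f = c g := by
    intro c A B h f hf
    have : c f ∈ B.image c := h ▸ mem_image_of_mem c hf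
    obtain ⟨g, hg, e⟩ := mem_image.mp this
    exact ⟨g, hg, e.symm⟩
  have l12 := im (fun f => f.1) D1 D2 e1
  have l21 := im (fun f => f.1) D2 D1 e1.symm
  -- same left point in one family
  have same : ∀ (D : Finset (Fm ι)), (∀ f ∈ D, Fr x y f) → Disj x y D → ∀ f ∈ D, ∀ g ∈ D,
      f.1 = g.1 → f = g := by
    intro D hD dD f hf g hg e
    refine de99_eq x y dD hf hg (x f.1, y f.1) (hD f hf).1 ?_
    rw [e]
    exact (hD g hg).1
  -- the statement at a point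
  have key : ∀ n : ℕ, ∀ m : ℤ, (∀ f ∈ D1, m ≤ x f.1) → ∀ p : ι, x p < m + n →
      ∀ f ∈ D1, ∀ g ∈ D2,
        ((f.2.1 = p ∧ g.2.1 = p) ∨ (f.2.2.1 = p ∧ g.2.2.1 = p) ∨ (f.2.2.2 = p ∧ g.2.2.2 = p)) →
        f.1 = g.1 := by
    intro n m hm
    induction n with
    | zero =>
      intro p hp f hf g hg hc
      exfalso
      have := hm f hf
      obtain ⟨_, ⟨fr1, _⟩, ⟨fb1, _⟩, ⟨ft1, _⟩⟩ := h1 f hf
      simp only at fr1 fb1 ft1
      rcases hc with ⟨q, _⟩ | ⟨q, _⟩ | ⟨q, _⟩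
      · rw [q] at fr1; simp at hp; omega
      · rw [q] at fb1; simp at hp; omega
      · rw [q] at ft1; simp at hp; omega
    | succ n ih =>
      intro p hp f hf g hg hc
      rcases lt_or_ge (x p) (m + n) with hlt | hge
      · exact ih p hlt f hf g hg hc
      · have hX : x p = m + n := by push_cast at hp; omega
        have agr : ∀ c : Fm ι → ι, D1.image c = D2.image c →
            (∀ p : ι, x p < m + n → ∀ f ∈ D1, ∀ g ∈ D2, c f = p → c g = p → f.1 = g.1) →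
            De99Agr x D1 D2 c (m + n) := by
          intro c hc hS f hf g hg e hor
          rcases hor with ha | ha
          · obtain ⟨g2, hg2, eg2⟩ := im c D1 D2 hc f hf
            have hh := hS (c f) ha f hf g2 hg2 rfl eg2.symm
            have : g2 = g := same D2 h2 d2 g2 hg2 g hg (by rw [← hh, e])
            rw [eg2, this]
          · obtain ⟨f2, hf2, ef2⟩ := im c D2 D1 hc.symm g hg
            have hh := hS (c g) ha f2 hf2 g hg ef2.symm rfl
            have : f2 = f := same D1 h1 d1 f2 hf2 f hf (by rw [hh, e])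
            rw [ef2, this]
        have aR : De99Agr x D1 D2 (fun f => f.2.1) (m + n) :=
          agr _ e2 (fun p hp f hf g hg a b => ih p hp f hf g hg (Or.inl ⟨a, b⟩))
        have aT : De99Agr x D1 D2 (fun f => f.2.2.2) (m + n) :=
          agr _ e4 (fun p hp f hf g hg a b => ih p hp f hf g hg (Or.inr (Or.inr ⟨a, b⟩)))
        by_contra hne
        rcases lt_or_gt_of_ne (fun h => hne (hy h)) with hlt | hgt
        · exact de99_lt x y hx h1 h2 d1 d2 l12 l21 (im _ D1 D2 e4) aR aT hf hg p hX hc hlt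
        · refine de99_lt x y hx h2 h1 d2 d1 l21 l12 (im _ D2 D1 e4.symm) aR.symm aT.symm hg hf p hX
            ?_ hgt
          rcases hc with ⟨a, b⟩ | ⟨a, b⟩ | ⟨a, b⟩
          · exact Or.inl ⟨b, a⟩
          · exact Or.inr (Or.inl ⟨b, a⟩)
          · exact Or.inr (Or.inr ⟨b, a⟩)
  -- a lower bound
  have hlow : ∃ m : ℤ, ∀ f ∈ D1, m ≤ x f.1 := by
    rcases D1.eq_empty_or_nonempty with h0 | hne
    · exact ⟨0, fun f hf => by simp [h0] at hf⟩
    · obtain ⟨f0, _, hf0⟩ := D1.exists_min_image (fun f => x f.1) hne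
      exact ⟨x f0.1, hf0⟩
  obtain ⟨m, hm⟩ := hlow
  have all : ∀ p : ι, ∀ f ∈ D1, ∀ g ∈ D2,
        ((f.2.1 = p ∧ g.2.1 = p) ∨ (f.2.2.1 = p ∧ g.2.2.1 = p) ∨ (f.2.2.2 = p ∧ g.2.2.2 = p)) →
        f.1 = g.1 := by
    intro p
    refine key (x p - m + 1).toNat m hm p ?_
    have := Int.self_le_toNat (x p - m + 1)
    omega
  -- equality of boxes with the same left point
  have eqb : ∀ f ∈ D1, ∀ g ∈ D2, f.1 = g.1 → f = g := by
    intro f hf g hg e
    have cc : ∀ c : Fm ι → ι, D1.image c = D2.image c →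
        (∀ p : ι, ∀ f ∈ D1, ∀ g ∈ D2, c f = p → c g = p → f.1 = g.1) → c f = c g := by
      intro c hc hS
      obtain ⟨g2, hg2, eg2⟩ := im c D1 D2 hc f hf
      have hh := hS (c f) f hf g2 hg2 rfl eg2.symm
      have : g2 = g := same D2 h2 d2 g2 hg2 g hg (by rw [← hh, e])
      rw [eg2, this]
    have r1 : f.2.1 = g.2.1 := cc (fun f => f.2.1) e2
      (fun p f hf g hg a b => all p f hf g hg (Or.inl ⟨a, b⟩))
    have r2 : f.2.2.1 = g.2.2.1 := cc (fun f => f.2.2.1) e3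
      (fun p f hf g hg a b => all p f hf g hg (Or.inr (Or.inl ⟨a, b⟩)))
    have r3 : f.2.2.2 = g.2.2.2 := cc (fun f => f.2.2.2) e4
      (fun p f hf g hg a b => all p f hf g hg (Or.inr (Or.inr ⟨a, b⟩)))
    exact Prod.ext e (Prod.ext r1 (Prod.ext r2 r3))
  ext f
  constructor
  · intro hf
    obtain ⟨g, hg, e⟩ := l12 f hf
    rw [eqb f hf g hg e]
    exact hg
  · intro hf
    obtain ⟨g, hg, e⟩ := l21 f hf
    rw [← eqb g hg f hf e.symm]
    exact hg

end Pool.Agent.helper78.HR
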